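import Pool.Agent.Helper75.FS.St

set_option autoImplicit false

namespace Pool.Agent.Helper72.FS

open Pool.Agent.Helper75.FS

/-- The sphere covering bound. -/
theorem sphere (n r : ℕ) (V : Submodule (ZMod 2) (Fin n → ZMod 2)) (hV : Cov n r V) :
    2 ^ n ≤ Nat.card V * ball n r := by
  classical
  let B := {x : Fin n → ZMod 2 // hammingNorm x ≤ r}
  let f : V × B → (Fin n → ZMod 2) := fun p => (p.1 : Fin n → ZMod 2) + p.2.1
  have hf : Function.Surjective f := by
    intro y
    obtain ⟨v, hv, hy⟩ := hV y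
    exact ⟨(⟨v, hv⟩, ⟨y - v, hy⟩), by simp [f]⟩
  have h1 := Nat.card_le_card_of_surjective f hf
  have h2 : Nat.card (Fin n → ZMod 2) = 2 ^ n := by simp
  have h3 : Nat.card B = ball n r := by
    rw [Nat.card_eq_fintype_card, Fintype.card_subtype]
    rfl
  rw [h2, Nat.card_prod, h3] at h1
  exact h1

theorem hA4 : StA4 := by
  refine ⟨?_, ?_, ?_, ?_, ?_⟩
  · intro n r
    refine ⟨⊤, fun y => ⟨y, Submodule.mem_top, by simp⟩, ?_⟩
    rw [pow_zero, mul_one, ← Nat.card_congr (Submodule.topEquiv (R := ZMod 2) (M := Fin n → ZMod 2)).toEquiv.symm]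
    simp
  · intro n r h
    refine ⟨⊥, fun y => ⟨0, Submodule.zero_mem _, ?_⟩, ?_⟩
    · rw [sub_zero]
      exact le_trans (hammingNorm_le_card_fintype) (by simpa using h)
    · simp
  · rintro n r c ⟨V, hV, hc⟩
    have h1 : 2 ^ c ≤ 2 ^ n := by
      rw [← hc]
      exact Nat.le_mul_of_pos_left _ Nat.card_pos
    exact (Nat.pow_le_pow_iff_right (by norm_num)).mp h1
  · rintro n r c ⟨V, hV, hc⟩
    have h1 := sphere n r V hV
    have h2 : Nat.card V * 2 ^ c ≤ Nat.card V * ball n r := by rw [hc]; exact h1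
    exact Nat.le_of_mul_le_mul_left h2 Nat.card_pos
  · intro n r
    have h1 : (ball n r : ℝ) ≤ ((n + r).choose r : ℝ) := by
      exact_mod_cast Pool.Agent.Helper26.CovL.card_ball_le n r
    refine h1.trans ((Nat.choose_le_pow_div r (n + r)).trans ?_)
    push_cast
    exact le_rfl

end Pool.Agent.Helper72.FS
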