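import Pool.Agent.Helper75.FS.St

set_option autoImplicit false

namespace Pool.Agent.Helper72.FS

open Pool.Agent.Helper75.FS Filter

/-- There are at least `C(n,r)` words of weight at most `r`. -/
theorem choose_le_ball (n r : ℕ) : n.choose r ≤ ball n r := by
  classical
  have h1 : n.choose r = (Finset.powersetCard r (Finset.univ : Finset (Fin n))).card := by
    rw [Finset.card_powersetCard, Finset.card_univ, Fintype.card_fin]
  rw [h1]
  unfold ball
  apply Finset.card_le_card_of_injOn (fun T => Pool.Agent.Helper26.CovL.ind T)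
  · intro T hT
    rw [Finset.mem_coe, Finset.mem_powersetCard] at hT
    rw [Finset.mem_coe, Finset.mem_filter]
    refine ⟨Finset.mem_univ _, ?_⟩
    rw [hammingNorm, ← hT.2]
    apply Finset.card_le_card
    intro i hi
    rw [Finset.mem_filter] at hi
    by_contra hiT
    exact hi.2 (by simp [Pool.Agent.Helper26.CovL.ind, hiT])
  · intro T _ T' _ h
    exact Pool.Agent.Helper26.CovL.ind_injective h

theorem hA7 : StA4 → StA7 := by
  intro hA4 r ε hε
  have hinv : Tendsto (fun n : ℕ => ((n : ℝ))⁻¹) atTop (nhds 0) :=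
    tendsto_inv_atTop_zero.comp tendsto_natCast_atTop_atTop
  have h1 : Tendsto (fun n : ℕ => (1 + (r : ℝ) * (n : ℝ)⁻¹) ^ r) atTop (nhds 1) := by
    have := ((hinv.const_mul (r : ℝ)).const_add 1).pow r
    simpa using this
  have h2 : Tendsto (fun n : ℕ => (1 - (r : ℝ) * (n : ℝ)⁻¹) ^ r) atTop (nhds 1) := by
    have := ((hinv.const_mul (r : ℝ)).const_sub 1).pow r
    simpa using this
  have h3 := h1.eventually (gt_mem_nhds (show (1 : ℝ) < 1 + ε by linarith))
  have h4 := h2.eventually (lt_mem_nhds (show 1 - ε < (1 : ℝ) by linarith))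
  obtain ⟨N, hN⟩ := eventually_atTop.1 (h3.and h4)
  refine ⟨max N (r + 1), fun n hn => ?_⟩
  have hnN : N ≤ n := le_trans (le_max_left _ _) hn
  have hnr : r + 1 ≤ n := le_trans (le_max_right _ _) hn
  obtain ⟨h5, h6⟩ := hN n hnN
  have hn0 : (0 : ℝ) < n := by
    have : 0 < n := by omega
    exact_mod_cast this
  have hf : (0 : ℝ) < (r.factorial : ℝ) := by exact_mod_cast r.factorial_pos
  constructor
  · have h7 : (((n + 1 - r : ℕ) : ℝ)) ^ r ≤ (r.factorial : ℝ) * (n.choose r : ℝ) := by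
      have h := Nat.pow_le_choose (α := ℝ) r n
      rw [div_le_iff₀ hf] at h
      push_cast at h
      linarith
    have h8 : ((n.choose r : ℕ) : ℝ) ≤ (ball n r : ℝ) := by exact_mod_cast choose_le_ball n r
    have h9 : (n : ℝ) - r ≤ ((n + 1 - r : ℕ) : ℝ) := by
      rw [Nat.cast_sub (by omega)]
      push_cast
      linarith
    have h10 : (0 : ℝ) ≤ (n : ℝ) - r := by
      have : (r : ℝ) ≤ n := by exact_mod_cast (by omega : r ≤ n)
      linarith
    have h11 : ((n : ℝ) - r) ^ r ≤ (((n + 1 - r : ℕ) : ℝ)) ^ r := pow_le_pow_left₀ h10 h9 r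
    have h12 : ((n : ℝ) - r) ^ r = (n : ℝ) ^ r * (1 - (r : ℝ) * (n : ℝ)⁻¹) ^ r := by
      rw [← mul_pow]
      congr 1
      field_simp
    have h13 : (1 - ε) * (n : ℝ) ^ r ≤ (r.factorial : ℝ) * (ball n r : ℝ) := by
      calc (1 - ε) * (n : ℝ) ^ r = (n : ℝ) ^ r * (1 - ε) := by ring
        _ ≤ (n : ℝ) ^ r * (1 - (r : ℝ) * (n : ℝ)⁻¹) ^ r :=
            mul_le_mul_of_nonneg_left h6.le (by positivity)
        _ = ((n : ℝ) - r) ^ r := h12.symm
        _ ≤ _ := h11
        _ ≤ _ := h7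
        _ ≤ _ := mul_le_mul_of_nonneg_left h8 hf.le
    rw [← mul_div_assoc, div_le_iff₀ hf]
    linarith
  · refine (hA4.2.2.2.2 n r).trans ?_
    rw [← mul_div_assoc]
    apply div_le_div_of_nonneg_right _ hf.le
    have h12 : ((n : ℝ) + r) ^ r = (n : ℝ) ^ r * (1 + (r : ℝ) * (n : ℝ)⁻¹) ^ r := by
      rw [← mul_pow]
      congr 1
      field_simp
    rw [h12]
    calc (n : ℝ) ^ r * (1 + (r : ℝ) * (n : ℝ)⁻¹) ^ r ≤ (n : ℝ) ^ r * (1 + ε) :=
            mul_le_mul_of_nonneg_left h5.le (by positivity)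
      _ = _ := by ring

end Pool.Agent.Helper72.FS
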